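import Pool.Agent.Q250.EN.Par

/-!
The recursively defined set `X` and its representation properties.
-/

set_option autoImplicit false

namespace Q250.EN

variable {r : ℕ} (P : Par r)

/-- `x` is forbidden at stage `k` (because of the target `p (k+1)`), where `Z` is the part of the set
below `x`. -/
def Bad (Z : ℕ → Prop) (k x : ℕ) : Prop :=
  (k % 2 = 0 → Z (k / 2)) ∧ ∃ x', Z x' ∧ (k % 2 = 0 → x' ≠ k / 2) ∧
    ∃ s : Fin r → ℕ, (∀ l, s l ≤ k) ∧ (k % 2 = 1 → ∀ l, s l ≠ k / 2) ∧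
      x + x' + ∑ l, P.y (s l) = P.p (k + 1)

/-- The recursion step. -/
def Phi (x : ℕ) (Z : ℕ → Prop) : Prop :=
  ∃ k, (P.p k < x ∧ x ≤ P.L k) ∨
    (P.L k < x ∧ x ≤ P.c k ∧ (P.M k ∣ x ∨ ∃ i, 1 ≤ i ∧ i ≤ P.K k ∧ x = P.L k * 4 ^ i + i)) ∨
    (P.c k < x ∧ x ≤ P.p (k + 1) ∧ ¬ Bad P Z k x)

variable {P}
variable {X : ℕ → Prop} (hX : ∀ x, X x ↔ Phi P x (fun z => z < x ∧ X z))

include hX

omit hX in
theorem L_lt_c (k : ℕ) : P.Tm k + P.L k < P.c k := by
  have h1 := P.L_lt_Tm k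
  have h2 := P.Tm_lt_y k
  have h3 := P.y_lt_c k
  have h4 := P.y_le_ry k
  omega

omit hX in
theorem c_lt_p (k : ℕ) : P.c k < P.p (k + 1) := by
  have h1 := P.hp k
  have h2 := P.y_lt_c k
  have h3 := P.y_le_ry k
  have h4 := P.p_lt_y k
  omega

omit hX in
/-- the stage of an element is determined by its size -/
theorem stage_unique {k k' x : ℕ} (h1 : P.p k < x) (h2 : x ≤ P.p (k + 1))
    (h3 : P.p k' < x) (h4 : x ≤ P.p (k' + 1)) : k = k' := by
  have a : k < k' + 1 := P.p_strictMono.lt_iff_lt.1 (h1.trans_le h4)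
  have b : k' < k + 1 := P.p_strictMono.lt_iff_lt.1 (h3.trans_le h2)
  omega

theorem X_dense {k x : ℕ} (h1 : P.p k < x) (h2 : x ≤ P.L k) : X x :=
  (hX x).2 ⟨k, Or.inl ⟨h1, h2⟩⟩

theorem X_mul {k x : ℕ} (h1 : P.L k < x) (h2 : x ≤ P.c k) (h3 : P.M k ∣ x) : X x :=
  (hX x).2 ⟨k, Or.inr (Or.inl ⟨h1, h2, Or.inl h3⟩)⟩

omit hX in
/-- elements of the auxiliary set are below `Tm` -/
theorem T_lt {k i : ℕ} (h1 : 1 ≤ i) (h2 : i ≤ P.K k) :
    P.L k < P.L k * 4 ^ i + i ∧ P.L k * 4 ^ i + i < P.Tm k := by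
  have hL : i < P.L k := by
    have := P.hKM k; have := P.M_lt_L k; omega
  have h4 : 4 ≤ 4 ^ i := by
    calc 4 = 4 ^ 1 := by norm_num
      _ ≤ 4 ^ i := Nat.pow_le_pow_right (by norm_num) h1
  have h5 : P.L k * 4 ≤ P.L k * 4 ^ i := Nat.mul_le_mul_left _ h4
  refine ⟨by omega, ?_⟩
  rw [P.hT k, pow_succ, ← mul_assoc]
  have h6 : P.L k * 4 ^ i ≤ P.L k * 4 ^ P.K k :=
    Nat.mul_le_mul_left _ (Nat.pow_le_pow_right (by norm_num) h2)
  omega

theorem X_T {k i : ℕ} (h1 : 1 ≤ i) (h2 : i ≤ P.K k) : X (P.L k * 4 ^ i + i) := by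
  have h := T_lt (P := P) h1 h2
  have h' := L_lt_c (P := P) k
  exact (hX _).2 ⟨k, Or.inr (Or.inl ⟨h.1, by omega, Or.inr ⟨i, h1, h2, rfl⟩⟩)⟩

/-- elements in the sparse region -/
theorem X_sparse {k x : ℕ} (h1 : P.L k < x) (h2 : x ≤ P.c k) (hx : X x) :
    P.M k ∣ x ∨ ∃ i, 1 ≤ i ∧ i ≤ P.K k ∧ x = P.L k * 4 ^ i + i := by
  have hpL := P.p_lt_M k
  have hML := P.M_lt_L k
  have hcp := c_lt_p (P := P) k
  obtain ⟨k', h⟩ := (hX x).1 hx
  have hLc' := L_lt_c (P := P) k'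
  have hcp' := c_lt_p (P := P) k'
  have hpM' := P.p_lt_M k'
  have hML' := P.M_lt_L k'
  have hk : k = k' := by
    apply stage_unique (x := x) (P := P) <;> rcases h with h | h | h <;> omega
  subst hk
  rcases h with h | h | h
  · omega
  · exact h.2.2
  · omega

/-- above `Tm` only multiples of `M` occur in the sparse region -/
theorem X_sparse' {k x : ℕ} (h1 : P.Tm k ≤ x) (h2 : x ≤ P.c k) (hx : X x) : P.M k ∣ x := by
  have h3 := P.L_lt_Tm k
  have h4 := P.M_lt_L k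
  rcases X_sparse hX (k := k) (by omega) h2 hx with h | ⟨i, hi1, hi2, h⟩
  · exact h
  · have := T_lt (P := P) hi1 hi2
    omega

theorem X_top {k x : ℕ} (h1 : P.c k < x) (h2 : x ≤ P.p (k + 1)) :
    X x ↔ ¬ Bad P (fun z => z < x ∧ X z) k x := by
  have hpM := P.p_lt_M k
  have hML := P.M_lt_L k
  have hLc := L_lt_c (P := P) k
  constructor
  · intro hx
    obtain ⟨k', h⟩ := (hX x).1 hx
    have hLc' := L_lt_c (P := P) k'
    have hcp' := c_lt_p (P := P) k'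
    have hpM' := P.p_lt_M k'
    have hML' := P.M_lt_L k'
    have hk : k = k' := by
      apply stage_unique (x := x) (P := P) <;> rcases h with h | h | h <;> omega
    subst hk
    rcases h with h | h | h
    · omega
    · omega
    · exact h.2.2
  · intro h
    exact (hX x).2 ⟨k, Or.inr (Or.inr ⟨h1, h2, h⟩)⟩

/-- the stage `k` has an active target -/
def Act (X : ℕ → Prop) (k : ℕ) : Prop := k % 2 = 0 → X (k / 2)

/-- admissible (forbidding) filler tuples of stage `k` -/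
def Oks (r k : ℕ) (s : Fin r → ℕ) : Prop := (∀ l, s l ≤ k) ∧ (k % 2 = 1 → ∀ l, s l ≠ k / 2)

omit hX in
theorem k_lt_c (k : ℕ) : k / 2 < P.c k := by
  have h1 := P.hk k
  have h2 := P.y_lt_c k
  have h3 := P.y_le_ry k
  have h4 := P.p_lt_y k
  omega

theorem not_X_top {k x : ℕ} (h1 : P.c k < x) (h2 : x ≤ P.p (k + 1)) (h : ¬ X x) :
    Act X k ∧ ∃ x', X x' ∧ (k % 2 = 0 → x' ≠ k / 2) ∧ ∃ s : Fin r → ℕ, Oks r k s ∧
      x + x' + ∑ l, P.y (s l) = P.p (k + 1) := by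
  have hb : Bad P (fun z => z < x ∧ X z) k x := by
    by_contra hb
    exact h ((X_top hX h1 h2).2 hb)
  obtain ⟨ha, x', hx', hne, s, hs1, hs2, hs3⟩ := hb
  exact ⟨fun hk => (ha hk).2, x', hx'.2, hne, s, ⟨hs1, hs2⟩, hs3⟩

omit hX in
theorem sum_y_le {k : ℕ} {s : Fin r → ℕ} (hs : ∀ l, s l ≤ k) : ∑ l, P.y (s l) ≤ r * P.y k := by
  calc ∑ l, P.y (s l) ≤ ∑ _l : Fin r, P.y k :=
        Finset.sum_le_sum (fun l _ => P.y_strictMono.monotone (hs l))
    _ = r * P.y k := by simp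

omit hX in
/-- decomposition of a filler sum modulo `M k` -/
theorem sum_y_mod {k : ℕ} {s : Fin r → ℕ} (hs : ∀ l, s l ≤ k) :
    ∃ e t : ℕ, ∑ l, P.y (s l) = e + P.M k * t ∧ e ≤ r * (2 * (P.p k + 1)) := by
  have h1 : ∀ l, ∃ e t : ℕ, P.y (s l) = e + P.M k * t ∧ e ≤ 2 * (P.p k + 1) := by
    intro l
    rcases (hs l).lt_or_eq with h | h
    · refine ⟨P.y (s l), 0, by simp, ?_⟩
      have := P.y_lt_of_lt h
      omega
    · obtain ⟨t, ht⟩ := P.M_dvd_Tm k
      refine ⟨2 * (P.p k + 1), 2 * t, ?_, le_refl _⟩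
      rw [h, P.hy k, ht]
      ring
  choose e t he using h1
  refine ⟨∑ l, e l, ∑ l, t l, ?_, ?_⟩
  · rw [Finset.mul_sum, ← Finset.sum_add_distrib]
    exact Finset.sum_congr rfl (fun l _ => (he l).1)
  · calc ∑ l, e l ≤ ∑ _l : Fin r, (2 * (P.p k + 1)) := Finset.sum_le_sum (fun l _ => (he l).2)
      _ = r * (2 * (P.p k + 1)) := by simp

omit hX in
theorem not_dvd_sum {k : ℕ} {s : Fin r → ℕ} (hs : ∀ l, s l ≤ k) :
    ¬ P.M k ∣ ∑ l, P.y (s l) + 1 := by
  obtain ⟨e, t, h1, h2⟩ := sum_y_mod (P := P) hs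
  intro h
  rw [h1, show e + P.M k * t + 1 = (e + 1) + P.M k * t by ring] at h
  have h3 := (Nat.dvd_add_left (Dvd.intro _ rfl)).1 h
  have h4 := Nat.le_of_dvd (by omega) h3
  have h5 := P.hM k
  omega

/-- Claim B: the target of an active stage has no representation avoiding the special element. -/
theorem target_no_rep {k : ℕ} (ha : Act X k) {x x' : ℕ} (hx : X x) (hx' : X x')
    (hne : k % 2 = 0 → x ≠ k / 2) (hne' : k % 2 = 0 → x' ≠ k / 2) (s : Fin r → ℕ)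
    (hs : k % 2 = 1 → ∀ l, s l ≠ k / 2) : x + x' + ∑ l, P.y (s l) ≠ P.p (k + 1) := by
  wlog hle : x' ≤ x generalizing x x'
  · rw [add_comm x x']
    exact this hx' hx hne' hne (by omega)
  intro h
  have hsk : ∀ l, s l ≤ k := by
    intro l
    by_contra hl
    push Not at hl
    have h1 : P.y (s l) ≤ ∑ l, P.y (s l) :=
      Finset.single_le_sum (f := fun l => P.y (s l)) (fun _ _ => Nat.zero_le _) (Finset.mem_univ l)
    have h2 := P.y_strictMono.monotone (show k + 1 ≤ s l by omega)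
    have h3 := P.p_lt_y (k + 1)
    omega
  have hcp := P.hp k
  rcases le_or_gt x (P.c k) with hxc | hxc
  · -- both elements are in the sparse region
    have h1 := sum_y_le (P := P) hsk
    have h2 := P.y_lt_c k
    have h3 := P.Tm_lt_y k
    have d1 := X_sparse' hX (k := k) (x := x) (by omega) hxc hx
    have d2 := X_sparse' hX (k := k) (x := x') (by omega) (by omega) hx'
    apply not_dvd_sum (P := P) hsk
    have h4 : x + x' + (∑ l, P.y (s l) + 1) = 2 * P.c k := by omega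
    have h5 : P.M k ∣ x + x' + (∑ l, P.y (s l) + 1) := by
      rw [h4]; exact (P.hcM k).mul_left _
    exact (Nat.dvd_add_right (dvd_add d1 d2)).1 h5
  · have hb := (X_top hX hxc (by omega)).1 hx
    apply hb
    have hkc := k_lt_c (P := P) k
    refine ⟨fun hk => ⟨by omega, ha hk⟩, x', ⟨by omega, hx'⟩, hne', s, hsk, hs, h⟩

end Q250.EN
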