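import Pool.Agent.Q250.EN.Core

/-!
Every integer of the range of a stage which is not exceptional is a sum of two large elements of `X`.
-/

set_option autoImplicit false

namespace Q250.EN

open Finset

theorem pigeon (I : Finset ℕ) (k r b : ℕ) (bad : (Fin r → Fin (k + 1)) → ℕ → Prop)
    (h : ∀ s, ∀ J : Finset ℕ, J ⊆ I → (∀ i ∈ J, bad s i) → J.card ≤ b)
    (hI : b * (k + 1) ^ r < I.card) : ∃ i ∈ I, ∀ s, ¬ bad s i := by
  classical
  by_contra hcon
  push Not at hcon
  have hsub : I ⊆ (Finset.univ : Finset (Fin r → Fin (k + 1))).biUnion (fun s => I.filter (bad s)) := by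
    intro i hi
    obtain ⟨s, hs⟩ := hcon i hi
    exact Finset.mem_biUnion.2 ⟨s, Finset.mem_univ _, Finset.mem_filter.2 ⟨hi, hs⟩⟩
  have h1 := (Finset.card_le_card hsub).trans Finset.card_biUnion_le
  have h2 : ∑ s : Fin r → Fin (k + 1), (I.filter (bad s)).card ≤ ∑ _s : Fin r → Fin (k + 1), b :=
    Finset.sum_le_sum (fun s _ => h s _ (Finset.filter_subset _ _)
      (fun i hi => (Finset.mem_filter.1 hi).2))
  have h3 : ∑ _s : Fin r → Fin (k + 1), b = (k + 1) ^ r * b := by
    rw [Finset.sum_const, Finset.card_univ, Fintype.card_fun, Fintype.card_fin, Fintype.card_fin,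
      smul_eq_mul]
  have h4 : (k + 1) ^ r * b = b * (k + 1) ^ r := mul_comm _ _
  omega

variable {r : ℕ} {P : Par r}

/-- the auxiliary elements -/
def tt (P : Par r) (k i : ℕ) : ℕ := P.L k * 4 ^ i + i

theorem tt_two_mul_lt {k i j : ℕ} (hij : i < j) (hj : j ≤ P.K k) : 2 * tt P k i < tt P k j := by
  unfold tt
  have h1 : P.L k * 4 ^ (i + 1) ≤ P.L k * 4 ^ j :=
    Nat.mul_le_mul_left _ (Nat.pow_le_pow_right (by norm_num) hij)
  rw [pow_succ, ← mul_assoc] at h1
  have h2 : i < P.L k := by have := P.hKM k; have := P.M_lt_L k; omega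
  have h3 : P.L k * 1 ≤ P.L k * 4 ^ i := Nat.mul_le_mul_left _ (Nat.one_le_pow _ _ (by norm_num))
  omega

theorem L_lt_tt {k i : ℕ} (hi : 1 ≤ i) : P.L k < tt P k i := by
  unfold tt
  have h3 : P.L k * 1 ≤ P.L k * 4 ^ i := Nat.mul_le_mul_left _ (Nat.one_le_pow _ _ (by norm_num))
  omega

theorem tt_lt_Tm {k i : ℕ} (h1 : 1 ≤ i) (h2 : i ≤ P.K k) : tt P k i < P.Tm k := (T_lt h1 h2).2

/-- The three sources of bad indices. -/
theorem bad_card {k A B : ℕ} (hAB : A ≠ B) (J : Finset ℕ) (hJ : J ⊆ Finset.Icc 1 (P.K k))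
    (h : ∀ i ∈ J, ∃ x, (x ≤ P.L k ∨ P.M k ∣ x ∨ ∃ j, 1 ≤ j ∧ j ≤ P.K k ∧ x = tt P k j) ∧
      A + x = B + tt P k i) : J.card ≤ 3 := by
  classical
  have hsub : J ⊆ (J.filter (fun i => ∃ x, x ≤ P.L k ∧ A + x = B + tt P k i)) ∪
      ((J.filter (fun i => ∃ x, P.M k ∣ x ∧ A + x = B + tt P k i)) ∪
      (J.filter (fun i => ∃ j, (1 ≤ j ∧ j ≤ P.K k) ∧ A + tt P k j = B + tt P k i))) := by
    intro i hi
    obtain ⟨x, hx | hx | ⟨j, hj1, hj2, hx⟩, h2⟩ := h i hi
    · exact Finset.mem_union_left _ (Finset.mem_filter.2 ⟨hi, x, hx, h2⟩)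
    · exact Finset.mem_union_right _ (Finset.mem_union_left _ (Finset.mem_filter.2 ⟨hi, x, hx, h2⟩))
    · exact Finset.mem_union_right _ (Finset.mem_union_right _
        (Finset.mem_filter.2 ⟨hi, j, ⟨hj1, hj2⟩, hx ▸ h2⟩))
  have hc1 : (J.filter (fun i => ∃ x, x ≤ P.L k ∧ A + x = B + tt P k i)).card ≤ 1 := by
    rw [Finset.card_le_one]
    have key : ∀ i i', i ∈ J.filter (fun i => ∃ x, x ≤ P.L k ∧ A + x = B + tt P k i) →
        i' ∈ J.filter (fun i => ∃ x, x ≤ P.L k ∧ A + x = B + tt P k i) → ¬ i < i' := by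
      intro i i' hi hi' hlt
      obtain ⟨hi, x, hx, e⟩ := Finset.mem_filter.1 hi
      obtain ⟨hi', x', hx', e'⟩ := Finset.mem_filter.1 hi'
      have m1 := Finset.mem_Icc.1 (hJ hi)
      have m2 := Finset.mem_Icc.1 (hJ hi')
      have g := tt_two_mul_lt (P := P) hlt m2.2
      have g2 := L_lt_tt (P := P) (k := k) m1.1
      omega
    intro i hi i' hi'
    rcases lt_trichotomy i i' with h | h | h
    · exact absurd h (key _ _ hi hi')
    · exact h
    · exact absurd h (key _ _ hi' hi)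
  have hc2 : (J.filter (fun i => ∃ x, P.M k ∣ x ∧ A + x = B + tt P k i)).card ≤ 1 := by
    rw [Finset.card_le_one]
    intro i hi i' hi'
    obtain ⟨hi, x, hx, e⟩ := Finset.mem_filter.1 hi
    obtain ⟨hi', x', hx', e'⟩ := Finset.mem_filter.1 hi'
    have m1 := Finset.mem_Icc.1 (hJ hi)
    have m2 := Finset.mem_Icc.1 (hJ hi')
    have hKM := P.hKM k
    unfold tt at e e'
    obtain ⟨u, hu⟩ := P.M_dvd_L k
    obtain ⟨v, hv⟩ := hx
    obtain ⟨v', hv'⟩ := hx'
    have hd : (P.M k : ℤ) ∣ (i : ℤ) - i' := by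
      refine ⟨(v : ℤ) - v' - u * 4 ^ i + u * 4 ^ i', ?_⟩
      have e1 : (A : ℤ) + x = B + (P.L k * 4 ^ i + i) := by exact_mod_cast e
      have e2 : (A : ℤ) + x' = B + (P.L k * 4 ^ i' + i') := by exact_mod_cast e'
      rw [hv] at e1; rw [hv'] at e2; rw [hu] at e1 e2
      push_cast at e1 e2
      linear_combination e2 - e1
    have habs : |(i : ℤ) - i'| < P.M k := by
      rw [abs_lt]; constructor <;> omega
    have := Int.eq_zero_of_abs_lt_dvd hd habs
    omega
  have hc3 : (J.filter (fun i => ∃ j, (1 ≤ j ∧ j ≤ P.K k) ∧ A + tt P k j = B + tt P k i)).card ≤ 1 := by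
    rw [Finset.card_le_one]
    have key : ∀ i i', i ∈ J.filter (fun i => ∃ j, (1 ≤ j ∧ j ≤ P.K k) ∧ A + tt P k j = B + tt P k i) →
        i' ∈ J.filter (fun i => ∃ j, (1 ≤ j ∧ j ≤ P.K k) ∧ A + tt P k j = B + tt P k i) → ¬ i < i' := by
      intro i i' hi hi' hlt
      obtain ⟨hi, j, hj, e⟩ := Finset.mem_filter.1 hi
      obtain ⟨hi', j', hj', e'⟩ := Finset.mem_filter.1 hi'
      have m1 := Finset.mem_Icc.1 (hJ hi)
      have m2 := Finset.mem_Icc.1 (hJ hi')
      have g := tt_two_mul_lt (P := P) hlt m2.2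
      have hjj : j < j' := by
        rcases lt_trichotomy j j' with h | h | h
        · exact h
        · subst h; omega
        · have := tt_two_mul_lt (P := P) h hj.2; omega
      have g' := tt_two_mul_lt (P := P) hjj hj'.2
      rcases lt_trichotomy i' j' with h | h | h
      · have := tt_two_mul_lt (P := P) h hj'.2; omega
      · subst h
        exact hAB (by omega)
      · have := tt_two_mul_lt (P := P) h m2.2; omega
    intro i hi i' hi'
    rcases lt_trichotomy i i' with h | h | h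
    · exact absurd h (key _ _ hi hi')
    · exact h
    · exact absurd h (key _ _ hi' hi)
  have h1 := Finset.card_le_card hsub
  have h2 := Finset.card_union_le (J.filter (fun i => ∃ x, x ≤ P.L k ∧ A + x = B + tt P k i))
      ((J.filter (fun i => ∃ x, P.M k ∣ x ∧ A + x = B + tt P k i)) ∪
      (J.filter (fun i => ∃ j, (1 ≤ j ∧ j ≤ P.K k) ∧ A + tt P k j = B + tt P k i)))
  have h3 := Finset.card_union_le (J.filter (fun i => ∃ x, P.M k ∣ x ∧ A + x = B + tt P k i))
      (J.filter (fun i => ∃ j, (1 ≤ j ∧ j ≤ P.K k) ∧ A + tt P k j = B + tt P k i))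
  omega

variable {X : ℕ → Prop} (hX : ∀ x, X x ↔ Phi P x (fun z => z < x ∧ X z))

include hX

/-- Range R3. -/
theorem cover3 {k m : ℕ} (h1 : P.c k + P.L k < m) (h2 : m ≤ P.c k + P.Tm k) :
    ∃ x x', X x ∧ X x' ∧ P.p k < x ∧ P.p k < x' ∧ x + x' = m := by
  classical
  have hpM := P.p_lt_M k
  have hML := P.hL k
  have hyc := P.y_lt_c k
  have hry := P.y_le_ry k
  have hTy := P.Tm_lt_y k
  have hcp := P.hp k
  have hKM := P.hKM k
  have hK := P.hK k
  have hcard : 1 * (k + 1) ^ r < (Finset.Icc (P.p k + 1) (P.p k + P.M k)).card := by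
    rw [Nat.card_Icc]
    generalize (k + 1) ^ r = w at *
    omega
  obtain ⟨a, ha, hgood⟩ := pigeon (Finset.Icc (P.p k + 1) (P.p k + P.M k)) k r 1
    (fun s a => P.M k ∣ (m - a) + ∑ l, P.y (s l : ℕ) + 1) (by
      intro s J hJ hbad
      rw [Finset.card_le_one]
      intro a ha b hb
      have ma := Finset.mem_Icc.1 (hJ ha)
      have mb := Finset.mem_Icc.1 (hJ hb)
      obtain ⟨u, hu⟩ := hbad a ha
      obtain ⟨v, hv⟩ := hbad b hb
      have hd : (P.M k : ℤ) ∣ (a : ℤ) - b := by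
        refine ⟨(v : ℤ) - u, ?_⟩
        have e1 : ((m : ℤ) - a) + ∑ l, (P.y (s l : ℕ) : ℤ) + 1 = P.M k * u := by
          have : ((m - a : ℕ) : ℤ) = (m : ℤ) - a := by rw [Nat.cast_sub (by omega)]
          rw [← this]; exact_mod_cast hu
        have e2 : ((m : ℤ) - b) + ∑ l, (P.y (s l : ℕ) : ℤ) + 1 = P.M k * v := by
          have : ((m - b : ℕ) : ℤ) = (m : ℤ) - b := by rw [Nat.cast_sub (by omega)]
          rw [← this]; exact_mod_cast hv
        linear_combination e2 - e1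
      have habs : |(a : ℤ) - b| < P.M k := by
        rw [abs_lt]; constructor <;> omega
      have := Int.eq_zero_of_abs_lt_dvd hd habs
      omega) hcard
  rw [Finset.mem_Icc] at ha
  refine ⟨m - a, a, ?_, X_dense hX (k := k) (by omega) (by omega), by omega, by omega, by omega⟩
  by_contra hnx
  obtain ⟨-, x'', hx'', -, s, hs, hsum⟩ := not_X_top hX (k := k) (x := m - a) (by omega) (by omega) hnx
  have hle := sum_y_le (P := P) hs.1
  have hd := X_sparse' hX (k := k) (x := x'') (by omega) (by omega) hx''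
  apply hgood (fun l => ⟨s l, by have := hs.1 l; omega⟩)
  have h4 : x'' + ((m - a) + ∑ l, P.y (s l) + 1) = 2 * P.c k := by omega
  have h5 : P.M k ∣ x'' + ((m - a) + ∑ l, P.y (s l) + 1) := by
    rw [h4]; exact (P.hcM k).mul_left _
  exact (Nat.dvd_add_right hd).1 h5

/-- Range R4. -/
theorem cover4 {k m : ℕ} (h1 : P.c k + P.Tm k < m) (h2 : m ≤ 4 * P.p (k + 1))
    (hex : Act X k → ∀ s, Oks r k s → m + ∑ l, P.y (s l) ≠ P.p (k + 1)) :
    ∃ x x', X x ∧ X x' ∧ P.p k < x ∧ P.p k < x' ∧ x + x' = m := by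
  classical
  have hpM := P.p_lt_M k
  have hML := P.hL k
  have hyc := P.y_lt_c k
  have hry := P.y_le_ry k
  have hTy := P.Tm_lt_y k
  have hcp := P.hp k
  have hK := P.hK k
  have hpL := P.hpL k
  have hcard : 3 * (k + 1) ^ r < (Finset.Icc 1 (P.K k)).card := by
    rw [Nat.card_Icc]
    generalize (k + 1) ^ r = w at *
    omega
  obtain ⟨i, hi, hgood⟩ := pigeon (Finset.Icc 1 (P.K k)) k r 3
    (fun s i => (Act X k ∧ Oks r k (fun l => (s l : ℕ))) ∧ ∃ x, (X x ∧ x ≤ P.c k) ∧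
      (m + ∑ l, P.y (s l : ℕ)) + x = P.p (k + 1) + tt P k i) (by
      intro s J hJ hbad
      rcases J.eq_empty_or_nonempty with hJe | ⟨i0, hi0⟩
      · rw [hJe]; simp
      have hexs := hex (hbad i0 hi0).1.1 _ (hbad i0 hi0).1.2
      refine bad_card (P := P) (k := k) hexs J hJ ?_
      intro i hi
      obtain ⟨-, x, ⟨hx, hxc⟩, hsum⟩ := hbad i hi
      refine ⟨x, ?_, hsum⟩
      rcases le_or_gt x (P.L k) with hxL | hxL
      · exact Or.inl hxL
      · rcases X_sparse hX hxL hxc hx with h | ⟨j, hj1, hj2, h⟩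
        · exact Or.inr (Or.inl h)
        · exact Or.inr (Or.inr ⟨j, hj1, hj2, h⟩)) hcard
  rw [Finset.mem_Icc] at hi
  have ht1 := tt_lt_Tm (P := P) hi.1 hi.2
  have ht2 := L_lt_tt (P := P) (k := k) hi.1
  refine ⟨m - tt P k i, tt P k i, ?_, X_T hX hi.1 hi.2, by omega, by omega, by omega⟩
  rcases le_or_gt (m - tt P k i) (P.p (k + 1)) with hle | hgt
  · by_contra hnx
    obtain ⟨ha, x'', hx'', -, s, hs, hsum⟩ :=
      not_X_top hX (k := k) (x := m - tt P k i) (by omega) hle hnx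
    apply hgood (fun l => ⟨s l, by have := hs.1 l; omega⟩)
    refine ⟨⟨ha, hs⟩, x'', ⟨hx'', by omega⟩, ?_⟩
    simp only
    omega
  · exact X_dense hX (k := k + 1) hgt (by omega)

/-- Claim A. -/
theorem cover {k m : ℕ} (h1 : 2 * P.p k + 2 ≤ m) (h2 : m ≤ 4 * P.p (k + 1))
    (hex : Act X k → ∀ s, Oks r k s → m + ∑ l, P.y (s l) ≠ P.p (k + 1)) :
    ∃ x x', X x ∧ X x' ∧ P.p k < x ∧ P.p k < x' ∧ x + x' = m := by
  have hpM := P.p_lt_M k
  have hML := P.hL k
  have hLc := L_lt_c (P := P) k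
  rcases le_or_gt m (2 * P.L k) with hR1 | hR1
  · rcases le_or_gt m (P.L k + P.p k + 1) with h | h
    · exact ⟨m - P.p k - 1, P.p k + 1, X_dense hX (k := k) (by omega) (by omega),
        X_dense hX (k := k) (by omega) (by omega), by omega, by omega, by omega⟩
    · exact ⟨P.L k, m - P.L k, X_dense hX (k := k) (by omega) (by omega),
        X_dense hX (k := k) (by omega) (by omega), by omega, by omega, by omega⟩
  rcases le_or_gt m (P.c k + P.p k) with hR2 | hR2
  · have hd := Nat.div_add_mod (m - P.p k - 1) (P.M k)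
    have hm := Nat.mod_lt (m - P.p k - 1) (P.M_pos k)
    set q := P.M k * ((m - P.p k - 1) / P.M k) with hq
    exact ⟨q, m - q, X_mul hX (k := k) (by omega) (by omega) (Dvd.intro _ hq.symm),
      X_dense hX (k := k) (by omega) (by omega), by omega, by omega, by omega⟩
  rcases le_or_gt m (P.c k + P.L k) with hR3 | hR3
  · exact ⟨P.c k, m - P.c k, X_mul hX (k := k) (by omega) (by omega) (P.hcM k),
      X_dense hX (k := k) (by omega) (by omega), by omega, by omega, by omega⟩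
  rcases le_or_gt m (P.c k + P.Tm k) with hR4 | hR4
  · exact cover3 hX hR3 hR4
  · exact cover4 hX hR4 h2 hex

/-- Claim C: the special representation of a target of even index. -/
theorem special {k : ℕ} (hk : k % 2 = 0) (ha : X (k / 2)) :
    ∃ x, X x ∧ P.c k < x ∧ k / 2 + x + r * P.y k = P.p (k + 1) := by
  have hyc := P.y_lt_c k
  have hry := P.y_le_ry k
  have hcp := P.hp k
  have hkp := P.hk k
  have hpy := P.p_lt_y k
  have hTy := P.Tm_lt_y k
  refine ⟨P.p (k + 1) - k / 2 - r * P.y k, ?_, by omega, by omega⟩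
  by_contra hnx
  obtain ⟨-, x', hx', hne, s, hs, hsum⟩ := not_X_top hX (k := k) (by omega) (by omega) hnx
  have hne := hne hk
  have hle := sum_y_le (P := P) hs.1
  -- `x' = k/2 + ∑ (y k - y (s l))`
  by_cases hall : ∀ l, s l = k
  · have : ∑ l, P.y (s l) = r * P.y k := by
      rw [Finset.sum_congr rfl (fun l _ => by rw [hall l])]; simp
    omega
  · push Not at hall
    obtain ⟨l0, hl0⟩ := hall
    -- pointwise decomposition
    have h1 : ∀ l, ∃ g t : ℕ, P.y (s l) + g + P.M k * t = P.y k ∧ g ≤ 2 * (P.p k + 1) ∧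
        (s l = k ∨ (1 ≤ g ∧ P.M k * t = 2 * P.Tm k)) := by
      intro l
      rcases (hs.1 l).lt_or_eq with h | h
      · obtain ⟨t, ht⟩ := P.M_dvd_Tm k
        have h' := P.y_lt_of_lt h
        refine ⟨2 * (P.p k + 1) - P.y (s l), 2 * t, ?_, by omega, Or.inr ⟨by omega, ?_⟩⟩
        · rw [show P.M k * (2 * t) = 2 * (P.M k * t) by ring, ← ht]; omega
        · rw [ht]; ring
      · exact ⟨0, 0, by rw [h]; simp, by omega, Or.inl h⟩
    choose g t hg using h1
    have hsumg : ∑ l, P.y (s l) + ∑ l, g l + P.M k * ∑ l, t l = r * P.y k := by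
      rw [Finset.mul_sum, ← Finset.sum_add_distrib, ← Finset.sum_add_distrib,
        Finset.sum_congr rfl (fun l _ => (hg l).1)]
      simp
    have hgle : ∑ l, g l ≤ r * (2 * (P.p k + 1)) := by
      calc ∑ l, g l ≤ ∑ _l : Fin r, (2 * (P.p k + 1)) := Finset.sum_le_sum (fun l _ => (hg l).2.1)
        _ = r * (2 * (P.p k + 1)) := by simp
    have hl0' := (hg l0).2.2.resolve_left hl0
    have hg1 : 1 ≤ ∑ l, g l := hl0'.1.trans
      (Finset.single_le_sum (f := fun l => g l) (fun _ _ => Nat.zero_le _) (Finset.mem_univ l0))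
    have ht1 : 2 * P.Tm k ≤ P.M k * ∑ l, t l := by
      rw [← hl0'.2]
      exact Nat.mul_le_mul_left _
        (Finset.single_le_sum (f := fun l => t l) (fun _ _ => Nat.zero_le _) (Finset.mem_univ l0))
    have hx'eq : x' = (k / 2 + ∑ l, g l) + P.M k * ∑ l, t l := by omega
    have hd := X_sparse' hX (k := k) (x := x') (by omega) (by omega) hx'
    rw [hx'eq] at hd
    have hd2 := (Nat.dvd_add_left (Dvd.intro _ rfl)).1 hd
    have hd3 := Nat.le_of_dvd (by omega) hd2
    have hM := P.hM k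
    omega

end Q250.EN
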