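import Pool.Agent.Q250.EN.Cover

/-!
The basis of order `r + 2` and its stability property.
-/

set_option autoImplicit false

namespace Q250.EN

open Finset

variable {r : ℕ} {P : Par r}

theorem exists_stage {m k0 : ℕ} (h : 3 * P.p (k0 + 1) < m) :
    ∃ k, k0 + 1 ≤ k ∧ 3 * P.p k < m ∧ m ≤ 3 * P.p (k + 1) := by
  classical
  have hex : ∃ k, m ≤ 3 * P.p (k + 1) := ⟨m, by have := P.hk (m + 1); omega⟩
  refine ⟨Nat.find hex, ?_, ?_, Nat.find_spec hex⟩
  · by_contra hlt
    push Not at hlt
    have h1 := Nat.find_spec hex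
    have h2 : P.p (Nat.find hex + 1) ≤ P.p (k0 + 1) := P.p_strictMono.monotone (by omega)
    omega
  · by_contra hlt
    push Not at hlt
    have hpos : 0 < Nat.find hex := by
      by_contra h0
      have h0 : Nat.find hex = 0 := by omega
      rw [h0] at hlt
      have h2 : P.p 0 ≤ P.p (k0 + 1) := P.p_strictMono.monotone (by omega)
      omega
    have := Nat.find_min hex (m := Nat.find hex - 1) (by omega)
    rw [Nat.sub_add_cancel hpos] at this
    exact this hlt

variable {X : ℕ → Prop} (hX : ∀ x, X x ↔ Phi P x (fun z => z < x ∧ X z))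

include hX

/-- Claim D: robust representation with two elements of `X` and `r` fillers. -/
theorem robust2 (N : ℕ) : ∃ m0, ∀ m, m0 ≤ m → ∃ x x', ∃ s : Fin r → ℕ,
    X x ∧ X x' ∧ N ≤ x ∧ N ≤ x' ∧ (∀ l, N ≤ s l) ∧ x + x' + ∑ l, P.y (s l) = m := by
  have hr := P.hr
  refine ⟨3 * P.p ((2 * N + 3) + 1) + 1, ?_⟩
  intro m hm
  obtain ⟨k, hk0, hk1, hk2⟩ := exists_stage (P := P) (m := m) (k0 := 2 * N + 3) (by omega)
  have hNp : N ≤ P.p k := by have := P.hk k; omega
  have hyc := P.y_lt_c k
  have hry := P.y_le_ry k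
  have hcp := P.hp k
  have hkp := P.hk k
  have hpy := P.p_lt_y k
  have hTy := P.Tm_lt_y k
  have hMp := P.p_lt_M k
  have hML := P.M_lt_L k
  have hLT := P.L_lt_Tm k
  obtain ⟨j, rfl⟩ : ∃ j, k = j + 1 := ⟨k - 1, by omega⟩
  have hyj := P.y_lt_c j
  have hyj' := P.hp j
  have hryj := P.y_le_ry j
  have hlt := P.ry_lt j
  -- a helper: constant filler tuples
  have hconst : ∀ i, ∑ _l : Fin r, P.y i = r * P.y i := fun i => by simp
  have use : ∀ i, N ≤ i → ∀ m', m' + r * P.y i = m → 2 * P.p (j + 1) + 2 ≤ m' →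
      m' ≤ 4 * P.p (j + 1 + 1) →
      (Act X (j + 1) → ∀ s, Oks r (j + 1) s → m' + ∑ l, P.y (s l) ≠ P.p (j + 1 + 1)) →
      ∃ x x', ∃ s : Fin r → ℕ, X x ∧ X x' ∧ N ≤ x ∧ N ≤ x' ∧ (∀ l, N ≤ s l) ∧
        x + x' + ∑ l, P.y (s l) = m := by
    intro i hi m' h1 h2 h3 h4
    obtain ⟨x, x', hx, hx', hlx, hlx', hs⟩ := cover hX h2 h3 h4
    exact ⟨x, x', fun _ => i, hx, hx', by omega, by omega, fun _ => hi, by rw [hconst]; omega⟩
  by_cases hact : Act X (j + 1)
  · by_cases hmn : m = P.p (j + 1 + 1)
    · -- the target itself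
      rcases Nat.mod_two_eq_zero_or_one (j + 1) with he | ho
      · obtain ⟨x, hx, hxc, hs⟩ := special hX he (hact he)
        exact ⟨(j + 1) / 2, x, fun _ => j + 1, hact he, hx, by omega, by omega,
          fun _ => by show N ≤ j + 1; omega,
          by rw [hconst]; omega⟩
      · -- odd: use the filler of index `(j+1)/2`
        have hi : (j + 1) / 2 ≤ j := by omega
        have hyi : P.y ((j + 1) / 2) ≤ P.y j := P.y_strictMono.monotone hi
        have hryi : r * P.y ((j + 1) / 2) ≤ r * P.y j := Nat.mul_le_mul_left _ hyi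
        refine use ((j + 1) / 2) (by omega) (m - r * P.y ((j + 1) / 2)) (by omega) (by omega)
          (by omega) ?_
        intro _ s hs hsum
        have hsum' : ∑ l, P.y (s l) = r * P.y ((j + 1) / 2) := by omega
        have hne := hs.2 ho
        by_cases hbig : ∃ l, (j + 1) / 2 < s l
        · obtain ⟨l, hl⟩ := hbig
          have h1 : P.y (s l) ≤ ∑ l, P.y (s l) :=
            Finset.single_le_sum (f := fun l => P.y (s l)) (fun _ _ => Nat.zero_le _)
              (Finset.mem_univ l)
          have h2 := P.y_strictMono.monotone (show (j + 1) / 2 + 1 ≤ s l by omega)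
          have h3 := P.ry_lt ((j + 1) / 2)
          omega
        · push Not at hbig
          have : ∑ l, P.y (s l) < ∑ _l : Fin r, P.y ((j + 1) / 2) := by
            apply Finset.sum_lt_sum_of_nonempty
            · exact ⟨⟨0, by omega⟩, Finset.mem_univ _⟩
            · intro l _
              exact P.y_strictMono (lt_of_le_of_ne (hbig l) (hne l))
          rw [hconst] at this
          omega
    · rcases lt_or_ge m (P.p (j + 1 + 1) - r * P.y (j + 1)) with hlow | hhigh
      · refine use j (by omega) (m - r * P.y j) (by omega) (by omega) (by omega) ?_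
        intro _ s hs hsum
        have := sum_y_le (P := P) hs.1
        omega
      · by_cases hbad : ∀ s, Oks r (j + 1) s →
            (m - r * P.y (j + 1)) + ∑ l, P.y (s l) ≠ P.p (j + 1 + 1)
        · exact use (j + 1) (by omega) (m - r * P.y (j + 1)) (by omega) (by omega) (by omega)
            (fun _ => hbad)
        · push Not at hbad
          obtain ⟨s1, hs1, hsum1⟩ := hbad
          refine use j (by omega) (m - r * P.y j) (by omega) (by omega) (by omega) ?_
          intro _ s hs hsum
          have hsle := sum_y_le (P := P) hs.1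
          by_cases hall : ∀ l, s1 l = j + 1
          · have : ∑ l, P.y (s1 l) = r * P.y (j + 1) := by
              rw [Finset.sum_congr rfl (fun l _ => by rw [hall l]), hconst]
            omega
          · push Not at hall
            obtain ⟨l0, hl0⟩ := hall
            have h1 : ∑ l, P.y (s1 l) + P.y (j + 1) ≤ r * P.y (j + 1) + P.y j := by
              have e1 : ∑ l, P.y (s1 l) = P.y (s1 l0) + ∑ l ∈ Finset.univ.erase l0, P.y (s1 l) :=
                (Finset.add_sum_erase _ _ (Finset.mem_univ l0)).symm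
              have e2 : ∑ _l : Fin r, P.y (j + 1) =
                  P.y (j + 1) + ∑ _l ∈ Finset.univ.erase l0, P.y (j + 1) :=
                (Finset.add_sum_erase _ (fun _ => P.y (j + 1)) (Finset.mem_univ l0)).symm
              have e3 : ∑ l ∈ Finset.univ.erase l0, P.y (s1 l) ≤
                  ∑ _l ∈ Finset.univ.erase l0, P.y (j + 1) :=
                Finset.sum_le_sum (fun l _ => P.y_strictMono.monotone (hs1.1 l))
              have e4 : P.y (s1 l0) ≤ P.y j := by
                apply P.y_strictMono.monotone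
                have := hs1.1 l0
                omega
              rw [hconst] at e2
              omega
            omega
  · refine use j (by omega) (m - r * P.y j) (by omega) (by omega) (by omega)
      (fun h => absurd h hact)

/-- Claim E: robust representation with three elements of `X`. -/
theorem robust3 (N : ℕ) : ∃ m0, ∀ m, m0 ≤ m → ∃ x1 x2 x3,
    X x1 ∧ X x2 ∧ X x3 ∧ N ≤ x1 ∧ N ≤ x2 ∧ N ≤ x3 ∧ x1 + x2 + x3 = m := by
  refine ⟨3 * P.p ((N + 3) + 1) + 1, ?_⟩
  intro m hm
  obtain ⟨k, hk0, hk1, hk2⟩ := exists_stage (P := P) (m := m) (k0 := N + 3) (by omega)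
  obtain ⟨j, rfl⟩ : ∃ j, k = j + 1 := ⟨k - 1, by omega⟩
  have hyc := P.y_lt_c j
  have hry := P.y_le_ry j
  have hcp := P.hp j
  have hkp := P.hk j
  have hpy := P.p_lt_y j
  have hTy := P.Tm_lt_y j
  have hMp := P.p_lt_M j
  have hML := P.M_lt_L j
  have hLT := P.L_lt_Tm j
  have hkp1 := P.hk (j + 1)
  have use : ∀ a, P.p j < a → a ≤ P.p j + 2 →
      (Act X (j + 1) → ∀ s, Oks r (j + 1) s → (m - a) + ∑ l, P.y (s l) ≠ P.p (j + 1 + 1)) →
      ∃ x1 x2 x3, X x1 ∧ X x2 ∧ X x3 ∧ N ≤ x1 ∧ N ≤ x2 ∧ N ≤ x3 ∧ x1 + x2 + x3 = m := by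
    intro a ha1 ha2 hex
    obtain ⟨x, x', hx, hx', hlx, hlx', hs⟩ := cover hX (k := j + 1) (m := m - a) (by omega)
      (by omega) hex
    exact ⟨a, x, x', X_dense hX (k := j) ha1 (by omega), hx, hx', by omega, by omega, by omega,
      by omega⟩
  by_cases hbad : Act X (j + 1) → ∀ s, Oks r (j + 1) s →
      (m - (P.p j + 1)) + ∑ l, P.y (s l) ≠ P.p (j + 1 + 1)
  · exact use (P.p j + 1) (by omega) (by omega) hbad
  · push Not at hbad
    obtain ⟨-, s1, hs1, hsum1⟩ := hbad
    refine use (P.p j + 2) (by omega) (by omega) ?_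
    intro _ s hs hsum
    have d1 : 2 ∣ ∑ l, P.y (s l) := Finset.dvd_sum (fun l _ => P.y_even _)
    have d2 : 2 ∣ ∑ l, P.y (s1 l) := Finset.dvd_sum (fun l _ => P.y_even _)
    omega

end Q250.EN
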