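import Pool.Agent.Q250.EN.Final

/-!
Main theorem: for every `h ≥ 3` there is an asymptotic basis of order `h` from which exactly the
finite subsets can be deleted.
-/

set_option autoImplicit false

namespace Q250.EN

open Finset

variable {r : ℕ} {P : Par r}

/-- the basis -/
def AA (P : Par r) (X : ℕ → Prop) : Set ℕ :=
  {a | (∃ x, X x ∧ a = 1 + (r + 1) * x) ∨ ∃ k, a = (r + 1) * P.y k}

theorem sum_ite_fin (n t a b : ℕ) (h : t ≤ n) :
    ∑ l : Fin n, (if (l : ℕ) < t then a else b) = t * a + (n - t) * b := by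
  rw [Fin.sum_univ_eq_sum_range (fun l => if l < t then a else b) n]
  obtain ⟨d, rfl⟩ : ∃ d, n = t + d := ⟨n - t, by omega⟩
  rw [Nat.add_sub_cancel_left]
  induction d with
  | zero =>
    rw [Nat.add_zero, Finset.sum_congr rfl (g := fun _ => a)]
    · simp
    · intro l hl
      rw [if_pos (Finset.mem_range.1 hl)]
  | succ d ih =>
    rw [← Nat.add_assoc, Finset.sum_range_succ, ih (by omega), if_neg (by omega)]
    ring

variable {X : ℕ → Prop} (hX : ∀ x, X x ↔ Phi P x (fun z => z < x ∧ X z))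

include hX

theorem basis_of_finite (S : Set ℕ) (hS : S.Finite) :
    ∃ N : ℕ, ∀ n : ℕ, N ≤ n → ∃ f : Fin (r + 2) → ℕ, (∀ i, f i ∈ AA P X \ S) ∧ ∑ i, f i = n := by
  obtain ⟨B, hB⟩ := hS.bddAbove
  have hBS : ∀ a, B < a → a ∉ S := fun a ha hS => absurd (hB hS) (by omega)
  have memX : ∀ x, X x → B ≤ x → 1 + (r + 1) * x ∈ AA P X \ S := by
    intro x hx hle
    refine ⟨Or.inl ⟨x, hx, rfl⟩, hBS _ ?_⟩
    have : x ≤ (r + 1) * x := Nat.le_mul_of_pos_left _ (by omega)
    omega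
  have memY : ∀ k, B + 1 ≤ k → (r + 1) * P.y k ∈ AA P X \ S := by
    intro k hle
    refine ⟨Or.inr ⟨k, rfl⟩, hBS _ ?_⟩
    have h1 : P.y k ≤ (r + 1) * P.y k := Nat.le_mul_of_pos_left _ (by omega)
    have h2 := P.p_lt_y k
    have h3 := P.hk k
    omega
  obtain ⟨m2, h2⟩ := robust2 hX (B + 1)
  obtain ⟨m3, h3⟩ := robust3 hX (B + 1)
  -- fixed elements
  have hxs : X (P.p (B + 1) + 1) := by
    apply X_dense hX (k := B + 1) (by omega)
    have := P.p_lt_M (B + 1); have := P.M_lt_L (B + 1); omega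
  set xs := P.p (B + 1) + 1 with hxsdef
  set ys := P.y (B + 1) with hysdef
  have hxsB : B ≤ xs := by have := P.hk (B + 1); omega
  refine ⟨2 + (r + 1) * (m2 + m3 + r * xs + r * ys + 1), ?_⟩
  intro n hn
  obtain ⟨d, rfl⟩ : ∃ d, n = 2 + d := ⟨n - 2, by omega⟩
  have hdiv := Nat.div_add_mod d (r + 1)
  have hmod := Nat.mod_lt d (show 0 < r + 1 by omega)
  set m := d / (r + 1) with hm
  set t := d % (r + 1) with ht
  have hmge : m2 + m3 + r * xs + r * ys + 1 ≤ m := by
    by_contra hlt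
    push Not at hlt
    have h1 : (r + 1) * (m + 1) ≤ (r + 1) * (m2 + m3 + r * xs + r * ys + 1) :=
      Nat.mul_le_mul_left _ (by omega)
    have h2 : (r + 1) * (m + 1) = (r + 1) * m + (r + 1) := by ring
    omega
  rcases Nat.eq_zero_or_pos t with h0 | hpos
  · obtain ⟨x, x', s, hx, hx', hlx, hlx', hls, hsum⟩ := h2 m (by omega)
    refine ⟨Fin.cons (1 + (r + 1) * x) (Fin.cons (1 + (r + 1) * x')
      (fun l : Fin r => (r + 1) * P.y (s l))), ?_, ?_⟩
    · intro i
      refine Fin.cases ?_ (fun i => ?_) i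
      · rw [Fin.cons_zero]; exact memX x hx (by omega)
      · rw [Fin.cons_succ]
        refine Fin.cases ?_ (fun i => ?_) i
        · rw [Fin.cons_zero]; exact memX x' hx' (by omega)
        · rw [Fin.cons_succ]; exact memY _ (hls i)
    · rw [Fin.sum_univ_succ, Fin.cons_zero]
      simp only [Fin.cons_succ]
      rw [Fin.sum_univ_succ, Fin.cons_zero]
      simp only [Fin.cons_succ]
      rw [← Finset.mul_sum]
      have : 1 + (r + 1) * x + (1 + (r + 1) * x' + (r + 1) * ∑ l, P.y (s l)) =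
          2 + (r + 1) * (x + x' + ∑ l, P.y (s l)) := by ring
      rw [this, hsum]
      omega
  · obtain ⟨r', hr'⟩ : ∃ r', r = r' + 1 := ⟨r - 1, by have := P.hr; omega⟩
    have ht1 : t - 1 ≤ r' := by omega
    have e1 : (t - 1) * xs ≤ r * xs := Nat.mul_le_mul_right _ (by omega)
    have e2 : (r' - (t - 1)) * ys ≤ r * ys := Nat.mul_le_mul_right _ (by omega)
    obtain ⟨x1, x2, x3, hx1, hx2, hx3, hl1, hl2, hl3, hsum⟩ :=
      h3 (m - (t - 1) * xs - (r' - (t - 1)) * ys) (by omega)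
    have key : ∃ f : Fin (r' + 3) → ℕ, (∀ i, f i ∈ AA P X \ S) ∧ ∑ i, f i = 2 + d := by
      refine ⟨Fin.cons (1 + (r + 1) * x1) (Fin.cons (1 + (r + 1) * x2)
        (Fin.cons (1 + (r + 1) * x3)
          (fun l : Fin r' => if (l : ℕ) < t - 1 then 1 + (r + 1) * xs else (r + 1) * ys))), ?_, ?_⟩
      · intro i
        refine Fin.cases ?_ (fun i => ?_) i
        · rw [Fin.cons_zero]; exact memX x1 hx1 (by omega)
        · rw [Fin.cons_succ]
          refine Fin.cases ?_ (fun i => ?_) i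
          · rw [Fin.cons_zero]; exact memX x2 hx2 (by omega)
          · rw [Fin.cons_succ]
            refine Fin.cases ?_ (fun i => ?_) i
            · rw [Fin.cons_zero]; exact memX x3 hx3 (by omega)
            · rw [Fin.cons_succ]
              split_ifs
              · exact memX xs hxs hxsB
              · exact memY (B + 1) le_rfl
      · rw [Fin.sum_univ_succ, Fin.cons_zero]
        simp only [Fin.cons_succ]
        rw [Fin.sum_univ_succ, Fin.cons_zero]
        simp only [Fin.cons_succ]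
        rw [Fin.sum_univ_succ, Fin.cons_zero]
        simp only [Fin.cons_succ]
        rw [sum_ite_fin _ _ _ _ ht1]
        have hm' : x1 + x2 + x3 + (t - 1) * xs + (r' - (t - 1)) * ys = m := by omega
        have : 1 + (r + 1) * x1 + (1 + (r + 1) * x2 + (1 + (r + 1) * x3 +
            ((t - 1) * (1 + (r + 1) * xs) + (r' - (t - 1)) * ((r + 1) * ys)))) =
            3 + (t - 1) + (r + 1) * (x1 + x2 + x3 + (t - 1) * xs + (r' - (t - 1)) * ys) := by ring
        rw [this, hm']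
        omega
    have hrr : r + 2 = r' + 3 := by omega
    rw [hrr]
    exact key

theorem no_rep {k : ℕ} (ha : Act X k) (f : Fin (r + 2) → ℕ)
    (hf : ∀ i, (∃ x, X x ∧ f i = 1 + (r + 1) * x ∧ (k % 2 = 0 → x ≠ k / 2)) ∨
      ∃ l, f i = (r + 1) * P.y l ∧ (k % 2 = 1 → l ≠ k / 2)) :
    ∑ i, f i ≠ 2 + (r + 1) * P.p (k + 1) := by
  classical
  intro hsum
  have hr := P.hr
  have hbg : ∀ i, ∃ b g l : ℕ, f i = b + (r + 1) * g ∧
      ((b = 1 ∧ X g ∧ (k % 2 = 0 → g ≠ k / 2)) ∨ (b = 0 ∧ g = P.y l ∧ (k % 2 = 1 → l ≠ k / 2))) := by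
    intro i
    rcases hf i with ⟨x, hx, h1, h2⟩ | ⟨l, h1, h2⟩
    · exact ⟨1, x, 0, h1, Or.inl ⟨rfl, hx, h2⟩⟩
    · exact ⟨0, P.y l, l, by rw [h1]; ring, Or.inr ⟨rfl, rfl, h2⟩⟩
  choose b g l hbg using hbg
  have h1 : ∑ i, f i = ∑ i, b i + (r + 1) * ∑ i, g i := by
    rw [Finset.mul_sum, ← Finset.sum_add_distrib]
    exact Finset.sum_congr rfl (fun i _ => (hbg i).1)
  have hb1 : ∀ i, b i ≤ 1 := by
    intro i; rcases (hbg i).2 with h | h <;> omega
  have h2 : ∑ i, b i ≤ r + 2 := by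
    calc ∑ i, b i ≤ ∑ _i : Fin (r + 2), 1 := Finset.sum_le_sum (fun i _ => hb1 i)
      _ = r + 2 := by simp
  set G := ∑ i, g i with hG
  set Bs := ∑ i, b i with hBs
  have h3 : Bs + (r + 1) * G = 2 + (r + 1) * P.p (k + 1) := by omega
  have hyc := P.y_lt_c k
  have hcp := P.hp k
  have hry := P.y_le_ry k
  rcases lt_trichotomy Bs 2 with hlt | heq | hgt
  · -- then `r = 1`, `Bs = 0`
    have hG1 : P.p (k + 1) + 1 ≤ G := by
      by_contra hcon
      push Not at hcon
      have : (r + 1) * G ≤ (r + 1) * P.p (k + 1) := Nat.mul_le_mul_left _ (by omega)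
      omega
    have hG2 : (r + 1) * (P.p (k + 1) + 1) ≤ (r + 1) * G := Nat.mul_le_mul_left _ hG1
    have hG3 : (r + 1) * (P.p (k + 1) + 1) = (r + 1) * P.p (k + 1) + (r + 1) := by ring
    have hr1 : r = 1 := by omega
    subst hr1
    have hB0 : Bs = 0 := by omega
    have hGe : G = P.p (k + 1) + 1 := by omega
    have hall : ∀ i, g i = P.y (l i) := by
      intro i
      have : b i = 0 := by
        have h' : b i ≤ Bs := Finset.single_le_sum (f := fun i => b i) (fun _ _ => Nat.zero_le _)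
          (Finset.mem_univ i)
        omega
      rcases (hbg i).2 with h | h
      · omega
      · exact h.2.1
    by_cases hbig : ∃ i, k < l i
    · obtain ⟨i, hi⟩ := hbig
      have e1 : g i ≤ G := Finset.single_le_sum (f := fun i => g i) (fun _ _ => Nat.zero_le _)
        (Finset.mem_univ i)
      rw [hall i] at e1
      have e2 := P.y_strictMono.monotone (show k + 1 ≤ l i by omega)
      have e3 := P.hy (k + 1)
      omega
    · push Not at hbig
      have : G ≤ ∑ _i : Fin (1 + 2), P.y k :=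
        Finset.sum_le_sum (fun i _ => by rw [hall i]; exact P.y_strictMono.monotone (hbig i))
      simp at this
      omega
  · -- the main case
    have hGn : G = P.p (k + 1) := by
      have : (r + 1) * G = (r + 1) * P.p (k + 1) := by omega
      exact Nat.eq_of_mul_eq_mul_left (by omega) this
    set J := (Finset.univ : Finset (Fin (r + 2))).filter (fun i => b i = 1) with hJ
    have hJc : J.card = 2 := by
      rw [hJ, Finset.card_filter]
      have : ∑ i, (if b i = 1 then 1 else 0) = Bs :=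
        Finset.sum_congr rfl (fun i _ => by
          have := hb1 i
          split_ifs <;> omega)
      rw [this, heq]
    obtain ⟨i1, i2, hne, hJe⟩ := Finset.card_eq_two.1 hJc
    have hJcc : (Jᶜ).card = r := by
      rw [Finset.card_compl, hJc, Fintype.card_fin]; omega
    let e := (Jᶜ).equivFinOfCardEq hJcc
    have hGsum : G = (g i1 + g i2) + ∑ t : Fin r, g (e.symm t) := by
      have e1 : G = ∑ i ∈ J, g i + ∑ i ∈ Jᶜ, g i := (Finset.sum_add_sum_compl J g).symm
      have e2 : ∑ i ∈ J, g i = g i1 + g i2 := by rw [hJe, Finset.sum_pair hne]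
      have e3 : ∑ i ∈ Jᶜ, g i = ∑ t : Fin r, g (e.symm t) := by
        rw [← Finset.sum_coe_sort (Jᶜ) g]
        exact (Equiv.sum_comp e.symm (fun i : (Jᶜ : Finset (Fin (r + 2))) => g i)).symm
      rw [e1, e2, e3]
    have hi1 : i1 ∈ J := by rw [hJe]; simp
    have hi2 : i2 ∈ J := by rw [hJe]; simp
    have hb1' : b i1 = 1 := (Finset.mem_filter.1 hi1).2
    have hb2' : b i2 = 1 := (Finset.mem_filter.1 hi2).2
    have c1 : X (g i1) ∧ (k % 2 = 0 → g i1 ≠ k / 2) := by
      rcases (hbg i1).2 with h | h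
      · exact h.2
      · omega
    have c2 : X (g i2) ∧ (k % 2 = 0 → g i2 ≠ k / 2) := by
      rcases (hbg i2).2 with h | h
      · exact h.2
      · omega
    have c3 : ∀ t : Fin r, g (e.symm t) = P.y (l (e.symm t)) ∧
        (k % 2 = 1 → l (e.symm t) ≠ k / 2) := by
      intro t
      have hm : ((e.symm t : (Jᶜ : Finset (Fin (r + 2)))) : Fin (r + 2)) ∈ Jᶜ := (e.symm t).2
      have hnb : b (e.symm t) ≠ 1 := by
        intro hb
        rw [Finset.mem_compl] at hm
        exact hm (Finset.mem_filter.2 ⟨Finset.mem_univ _, hb⟩)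
      rcases (hbg (e.symm t)).2 with h | h
      · exact absurd h.1 hnb
      · exact h.2
    apply target_no_rep hX ha c1.1 c2.1 c1.2 c2.2 (fun t => l (e.symm t)) (fun hk t => (c3 t).2 hk)
    rw [← hGn, hGsum]
    congr 1
    exact Finset.sum_congr rfl (fun t _ => (c3 t).1.symm)
  · have hG1 : G + 1 ≤ P.p (k + 1) := by
      by_contra hcon
      push Not at hcon
      have : (r + 1) * P.p (k + 1) ≤ (r + 1) * G := Nat.mul_le_mul_left _ (by omega)
      omega
    have hG2 : (r + 1) * (G + 1) ≤ (r + 1) * P.p (k + 1) := Nat.mul_le_mul_left _ hG1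
    have hG3 : (r + 1) * (G + 1) = (r + 1) * G + (r + 1) := by ring
    omega

theorem finite_of_basis (S : Set ℕ) (hSA : S ⊆ AA P X)
    (h : ∃ N : ℕ, ∀ n : ℕ, N ≤ n → ∃ f : Fin (r + 2) → ℕ, (∀ i, f i ∈ AA P X \ S) ∧ ∑ i, f i = n) :
    S.Finite := by
  by_contra hinf
  obtain ⟨N, hN⟩ := h
  have hsub : S ⊆ (fun x => 1 + (r + 1) * x) '' {x | X x ∧ 1 + (r + 1) * x ∈ S} ∪
      (fun k => (r + 1) * P.y k) '' {k | (r + 1) * P.y k ∈ S} := by
    intro a ha
    rcases hSA ha with ⟨x, hx, rfl⟩ | ⟨k, rfl⟩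
    · exact Or.inl ⟨x, ⟨hx, ha⟩, rfl⟩
    · exact Or.inr ⟨k, ha, rfl⟩
  have hnbig : ∀ k, N ≤ k → N ≤ 2 + (r + 1) * P.p (k + 1) := by
    intro k hk
    have h1 := P.hk (k + 1)
    have h2 : P.p (k + 1) ≤ (r + 1) * P.p (k + 1) := Nat.le_mul_of_pos_left _ (by omega)
    omega
  have hcases : {x | X x ∧ 1 + (r + 1) * x ∈ S}.Infinite ∨ {k | (r + 1) * P.y k ∈ S}.Infinite := by
    by_contra hcon
    rw [not_or, Set.not_infinite, Set.not_infinite] at hcon
    exact hinf (((hcon.1.image _).union (hcon.2.image _)).subset hsub)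
  rcases hcases with hc | hc
  · obtain ⟨x, ⟨hx, hxS⟩, hxN⟩ := hc.exists_gt N
    have hk2 : 2 * x / 2 = x := by omega
    obtain ⟨f, hf, hsum⟩ := hN (2 + (r + 1) * P.p (2 * x + 1)) (hnbig _ (by omega))
    refine no_rep hX (k := 2 * x) (fun _ => by rw [hk2]; exact hx) f ?_ hsum
    intro i
    obtain ⟨hA, hS⟩ := hf i
    rcases hA with ⟨z, hz, hzf⟩ | ⟨l, hl⟩
    · refine Or.inl ⟨z, hz, hzf, fun _ hzx => hS ?_⟩
      rw [hk2] at hzx
      rw [hzf, hzx]; exact hxS
    · exact Or.inr ⟨l, hl, fun h => by omega⟩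
  · obtain ⟨i0, hiS, hiN⟩ := hc.exists_gt N
    have hk2 : (2 * i0 + 1) / 2 = i0 := by omega
    obtain ⟨f, hf, hsum⟩ := hN (2 + (r + 1) * P.p ((2 * i0 + 1) + 1)) (hnbig _ (by omega))
    refine no_rep hX (k := 2 * i0 + 1) (fun h => by omega) f ?_ hsum
    intro i
    obtain ⟨hA, hS⟩ := hf i
    rcases hA with ⟨z, hz, hzf⟩ | ⟨l, hl⟩
    · exact Or.inl ⟨z, hz, hzf, fun h => by omega⟩
    · refine Or.inr ⟨l, hl, fun _ hl0 => hS ?_⟩
      rw [hk2] at hl0
      rw [hl, hl0]; exact hiS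

omit hX in
/-- For every `h ≥ 3` there is a set `A` of natural numbers that is an asymptotic basis of order `h`
and such that, for `S ⊆ A`, the set `A \ S` is an asymptotic basis of order `h` if and only if `S` is
finite. -/
theorem main (h : ℕ) (hh : 3 ≤ h) :
    ∃ A : Set ℕ,
      (∃ N : ℕ, ∀ n : ℕ, N ≤ n → ∃ f : Fin h → ℕ, (∀ i, f i ∈ A) ∧ ∑ i, f i = n) ∧
      ∀ S : Set ℕ, S ⊆ A →
        ((∃ N : ℕ, ∀ n : ℕ, N ≤ n → ∃ f : Fin h → ℕ, (∀ i, f i ∈ A \ S) ∧ ∑ i, f i = n) ↔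
          S.Finite) := by
  obtain ⟨r, rfl⟩ : ∃ r, h = r + 2 := ⟨h - 2, by omega⟩
  obtain ⟨X, hX⟩ := exists_rec (Phi (par r (by omega)))
  refine ⟨AA (par r (by omega)) X, ?_, ?_⟩
  · obtain ⟨N, hN⟩ := basis_of_finite hX ∅ Set.finite_empty
    refine ⟨N, fun n hn => ?_⟩
    obtain ⟨f, hf, hsum⟩ := hN n hn
    exact ⟨f, fun i => (hf i).1, hsum⟩
  · intro S hS
    exact ⟨finite_of_basis hX S hS, basis_of_finite hX S⟩

end Q250.EN
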