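import Mathlib

/-!
Parameters for the construction of a basis of order `h = r + 2` that is stable exactly under finite
deletions.
-/

set_option autoImplicit false

namespace Q250.EN

/-- The sequences of the construction together with all the growth facts that are used. -/
structure Par (r : ℕ) where
  /-- end of the previous stage -/
  p : ℕ → ℕ
  /-- modulus of the stage -/
  M : ℕ → ℕ
  /-- end of the dense part -/
  L : ℕ → ℕ
  /-- bound for the sparse auxiliary set -/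
  Tm : ℕ → ℕ
  /-- the fillers -/
  y : ℕ → ℕ
  /-- half of the target -/
  c : ℕ → ℕ
  /-- size of the sparse auxiliary set -/
  K : ℕ → ℕ
  hr : 1 ≤ r
  hKM : ∀ k, K k < M k
  hK : ∀ k, 3 * (k + 1) ^ r < K k
  hMe : ∀ k, 2 ∣ M k
  hM : ∀ k, p k + r * (2 * (p k + 1)) + 1 < M k
  hL : ∀ k, L k = 4 * M k
  hT : ∀ k, Tm k = L k * 4 ^ (K k + 1)
  hy : ∀ k, y k = 2 * Tm k + 2 * (p k + 1)
  hcM : ∀ k, M k ∣ c k
  hc : ∀ k, 4 * (r + 1) * y k ≤ c k
  hp : ∀ k, p (k + 1) + 1 = 2 * c k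
  hk : ∀ k, k ≤ p k
  hpL : ∀ k, 4 * p (k + 1) ≤ L (k + 1)

section explicit

variable (r : ℕ)

def Kf (k : ℕ) : ℕ := 3 * (k + 1) ^ r + 1
def Mf (k p : ℕ) : ℕ := 2 * (Kf r k + (r + 1) * (p + 1))
def Lf (k p : ℕ) : ℕ := 4 * Mf r k p
def Tf (k p : ℕ) : ℕ := Lf r k p * 4 ^ (Kf r k + 1)
def yf (k p : ℕ) : ℕ := 2 * Tf r k p + 2 * (p + 1)
def cf (k p : ℕ) : ℕ := Mf r k p * (4 * (r + 1) * yf r k p)
def pf : ℕ → ℕ
  | 0 => 1
  | (k + 1) => 2 * cf r k (pf k) - 1

theorem Mf_pos (k p : ℕ) : 1 ≤ Mf r k p := by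
  unfold Mf Kf
  have : 1 ≤ (r + 1) * (p + 1) := Nat.succ_le_of_lt (by positivity)
  omega

theorem le_Mf (k p : ℕ) : 2 * ((r + 1) * (p + 1)) ≤ Mf r k p := by
  unfold Mf; omega

theorem cf_ge (k p : ℕ) : 4 * (r + 1) * yf r k p ≤ cf r k p := by
  unfold cf
  exact Nat.le_mul_of_pos_left _ (Mf_pos r k p)

theorem yf_ge (k p : ℕ) : p + 1 ≤ yf r k p := by
  unfold yf; omega

theorem cf_ge' (k p : ℕ) : 4 * (p + 1) ≤ cf r k p := by
  have h1 := cf_ge r k p
  have h2 := yf_ge r k p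
  have h3 : 4 * (p + 1) ≤ 4 * (r + 1) * yf r k p := by
    calc 4 * (p + 1) ≤ 4 * yf r k p := by omega
      _ ≤ 4 * (r + 1) * yf r k p := by
        apply Nat.mul_le_mul_right; omega
  omega

theorem pf_succ (k : ℕ) : pf r (k + 1) + 1 = 2 * cf r k (pf r k) := by
  have : pf r (k + 1) = 2 * cf r k (pf r k) - 1 := rfl
  have h := cf_ge' r k (pf r k)
  omega

theorem le_pf (k : ℕ) : k ≤ pf r k := by
  induction k with
  | zero => omega
  | succ k ih =>
    have h1 := pf_succ r k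
    have h2 := cf_ge' r k (pf r k)
    omega

/-- the explicit choice of the parameters -/
def par (hr : 1 ≤ r) : Par r where
  p := pf r
  M k := Mf r k (pf r k)
  L k := Lf r k (pf r k)
  Tm k := Tf r k (pf r k)
  y k := yf r k (pf r k)
  c k := cf r k (pf r k)
  K := Kf r
  hr := hr
  hKM k := by
    unfold Mf
    have : 1 ≤ (r + 1) * (pf r k + 1) := Nat.succ_le_of_lt (by positivity)
    omega
  hK k := by unfold Kf; omega
  hMe k := by unfold Mf; exact Dvd.intro _ rfl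
  hM k := by
    unfold Mf Kf
    have : (r + 1) * (pf r k + 1) = r * (pf r k + 1) + (pf r k + 1) := by ring
    have h2 : r * (2 * (pf r k + 1)) = 2 * (r * (pf r k + 1)) := by ring
    omega
  hL k := rfl
  hT k := rfl
  hy k := rfl
  hcM k := Dvd.intro _ rfl
  hc k := cf_ge r k _
  hp k := pf_succ r k
  hk k := le_pf r k
  hpL k := by
    have h := le_Mf r (k + 1) (pf r (k + 1))
    have h2 : pf r (k + 1) + 1 ≤ (r + 1) * (pf r (k + 1) + 1) := Nat.le_mul_of_pos_left _ (by omega)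
    unfold Lf
    omega

end explicit

namespace Par

variable {r : ℕ} (P : Par r)

theorem p_lt_M (k : ℕ) : P.p k + 1 < P.M k := by
  have := P.hM k; omega

theorem M_pos (k : ℕ) : 0 < P.M k := by have := P.p_lt_M k; omega

theorem K_pos (k : ℕ) : 1 ≤ P.K k := by have := P.hK k; omega

theorem M_lt_L (k : ℕ) : P.M k < P.L k := by
  have := P.hL k; have := P.M_pos k; omega

theorem L_lt_Tm (k : ℕ) : 4 * P.L k ≤ P.Tm k := by
  rw [P.hT k, pow_succ, ← mul_assoc]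
  have : 1 ≤ 4 ^ P.K k := Nat.one_le_pow _ _ (by norm_num)
  have h2 : P.L k * 1 ≤ P.L k * 4 ^ P.K k := Nat.mul_le_mul_left _ this
  omega

theorem Tm_lt_y (k : ℕ) : 2 * P.Tm k + 2 * (P.p k + 1) = P.y k := (P.hy k).symm

theorem y_lt_c (k : ℕ) : r * P.y k + r * P.y k + r * P.y k + 4 * P.y k ≤ P.c k := by
  have h := P.hc k
  have : 4 * (r + 1) * P.y k = r * P.y k + r * P.y k + r * P.y k + r * P.y k + 4 * P.y k := by ring
  omega

theorem y_le_ry (k : ℕ) : P.y k ≤ r * P.y k := Nat.le_mul_of_pos_left _ P.hr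

theorem p_lt_p (k : ℕ) : 8 * P.y k ≤ P.p (k + 1) + 1 := by
  have h1 := P.y_lt_c k
  have h2 := P.hp k
  omega

theorem p_lt_y (k : ℕ) : P.p k < P.y k := by have := P.hy k; omega

theorem p_lt_succ (k : ℕ) : P.p k < P.p (k + 1) := by
  have := P.p_lt_p k; have := P.p_lt_y k; omega

theorem p_strictMono : StrictMono P.p := strictMono_nat_of_lt_succ P.p_lt_succ

theorem y_lt_p_succ (k : ℕ) : P.y k < P.p (k + 1) := by
  have := P.p_lt_p k; have := P.p_lt_y k; omega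

theorem y_lt_succ (k : ℕ) : P.y k < P.y (k + 1) :=
  (P.y_lt_p_succ k).trans (P.p_lt_y _)

theorem y_strictMono : StrictMono P.y := strictMono_nat_of_lt_succ P.y_lt_succ

theorem y_even (k : ℕ) : 2 ∣ P.y k := by
  rw [P.hy k]
  exact Dvd.intro (P.Tm k + (P.p k + 1)) (by ring)

theorem M_dvd_L (k : ℕ) : P.M k ∣ P.L k := by rw [P.hL k]; exact Dvd.intro_left _ rfl

theorem M_dvd_Tm (k : ℕ) : P.M k ∣ P.Tm k := by
  rw [P.hT k]; exact (P.M_dvd_L k).mul_right _

/-- `y (k+1)` is much larger than `r * y k`. -/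
theorem ry_lt (k : ℕ) : 2 * (r * P.y k) + P.y k < P.y (k + 1) := by
  have h1 := P.y_lt_c k
  have h2 := P.hp k
  have h3 := P.p_lt_y (k + 1)
  have h4 := P.y_le_ry k
  have h5 := P.p_lt_y k
  omega

theorem y_lt_of_lt {i k : ℕ} (h : i < k) : P.y i < P.p k :=
  (P.y_lt_p_succ i).trans_le (P.p_strictMono.monotone h)

end Par

/-- Definition by recursion of a set of natural numbers. -/
theorem exists_rec (Φ : ℕ → (ℕ → Prop) → Prop) :
    ∃ X : ℕ → Prop, ∀ x, X x ↔ Φ x (fun z => z < x ∧ X z) := by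
  let F : (x : ℕ) → ((z : ℕ) → z < x → Prop) → Prop := fun x ih => Φ x (fun z => ∃ h : z < x, ih z h)
  refine ⟨fun x => WellFounded.fix Nat.lt_wfRel.wf F x, fun x => ?_⟩
  have h := WellFounded.fix_eq Nat.lt_wfRel.wf F x
  show WellFounded.fix Nat.lt_wfRel.wf F x ↔ _
  rw [h]
  show Φ x _ ↔ Φ x _
  have : (fun z => ∃ _ : z < x, WellFounded.fix Nat.lt_wfRel.wf F z) =
      (fun z => z < x ∧ WellFounded.fix Nat.lt_wfRel.wf F z) := by
    funext z
    exact propext ⟨fun ⟨h1, h2⟩ => ⟨h1, h2⟩, fun ⟨h1, h2⟩ => ⟨h1, h2⟩⟩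
  rw [← this]

end Q250.EN
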